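import Mathlib
import Pool.Agent.R259.BesG

set_option autoImplicit false

namespace Pool.Agent.Results.MP_cdfc49_an.OnlyRealZeros

/-- The even entire function `G_{ν,n}(z) = ∑ (-1)^m (ν+2m)(ν+2m-1)⋯(ν+2m-n+1) / (m! Γ(ν+m+1))
(z/2)^{2m}`, whose zeros are the nonzero zeros of the `n`-th derivative of `J_ν`. -/
noncomputable def G (ν : ℝ) (n : ℕ) (z : ℂ) : ℂ :=
  ∑' m : ℕ, (((-1) ^ m * (∏ i ∈ Finset.range n, (ν + 2 * m - i)) /
    (m.factorial * Real.Gamma (ν + m + 1)) : ℝ) : ℂ) * (z / 2) ^ (2 * m)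

/-- For `ν ∈ [-1.1, -1)` all zeros of the first derivative of `J_ν` are real. -/
theorem result : ∀ ν : ℝ, -(11 / 10) ≤ ν → ν < -1 → ∀ z : ℂ, G ν 1 z = 0 → z.im = 0 := by
  intro ν h1 h2 z hz
  obtain ⟨P, hP, hc, hpos, hzero⟩ := Pool.Agent.R259.mainB h1 h2
  have e : G ν 1 z = ∑' m : ℕ, (((2 * m + ν) / (m.factorial * Real.Gamma (m + ν + 1)) : ℝ) : ℂ) *
      (-(z / 2) ^ 2) ^ m := by
    unfold G
    refine tsum_congr fun m => ?_
    rw [Finset.prod_range_one, neg_pow ((z / 2) ^ 2) m, pow_mul, show ν + m + 1 = m + ν + 1 by ring]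
    push_cast
    ring
  rw [e] at hz
  obtain ⟨h3, h4⟩ := hzero _ hz
  have e2 : (-(z / 2) ^ 2) = -((z ^ 2) / 4) := by ring
  have e3 : (z ^ 2).im = 2 * z.re * z.im := by rw [pow_two, Complex.mul_im]; ring
  have e4 : (z ^ 2).re = z.re ^ 2 - z.im ^ 2 := by rw [pow_two, Complex.mul_re]; ring
  rw [e2] at h3 h4
  have h5 : (-((z ^ 2) / 4)).im = -((z ^ 2).im / 4) := by
    rw [show (4 : ℂ) = ((4 : ℝ) : ℂ) by norm_num, Complex.neg_im, Complex.div_ofReal_im]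
  have h6 : (-((z ^ 2) / 4)).re = -((z ^ 2).re / 4) := by
    rw [show (4 : ℂ) = ((4 : ℝ) : ℂ) by norm_num, Complex.neg_re, Complex.div_ofReal_re]
  rw [h5, e3] at h3
  rw [h6, e4] at h4
  have h7 : z.re * z.im = 0 := by linarith
  rcases mul_eq_zero.1 h7 with h8 | h8
  · rw [h8] at h4
    have : z.im ^ 2 ≤ 0 := by linarith
    exact pow_eq_zero_iff two_ne_zero |>.1 (le_antisymm this (sq_nonneg _))
  · exact h8

/-- The statement asked about in Q1 fails (take `n = 1`, `s = 1`, `ν = -1.1`, where four nonreal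
zeros are predicted). Zeros are counted with multiplicity. -/
lemma negation : ¬ ∀ (n s : ℕ) (ν : ℝ), 1 ≤ s → (n : ℝ) - 2 * s - 1 < ν → ν < (n : ℝ) - 2 * s →
    (∑' z : {z : ℂ // G ν n z = 0 ∧ z.im ≠ 0}, analyticOrderAt (G ν n) z) = 4 * s ∧
      ∀ y : ℝ, y ≠ 0 → G ν n (y * Complex.I) ≠ 0 := by
  intro h
  have h1 := (h 1 1 (-(11 / 10)) le_rfl (by norm_num) (by norm_num)).1
  have h2 : IsEmpty {z : ℂ // G (-(11 / 10)) 1 z = 0 ∧ z.im ≠ 0} :=
    ⟨fun z => z.2.2 (result _ le_rfl (by norm_num) _ z.2.1)⟩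
  rw [tsum_empty] at h1
  norm_num at h1

end Pool.Agent.Results.MP_cdfc49_an.OnlyRealZeros
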